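import Pool.Agent.Lib.MP_4269b5_al.AgFin

namespace Pool.Agent.Results.MP_4269b5_al.Agrarian

open CategoryTheory

/-- `G` is of type FP, its cohomology with coefficients in the integral group ring vanishes in
degrees other than three and is infinite cyclic in degree three. -/
def IsPD3 (G : Type) [Group G] : Prop :=
  (∃ P : ProjectiveResolution (Rep.trivial ℤ G ℤ),
    (∃ N : ℕ, ∀ i, N < i → Limits.IsZero (P.complex.X i)) ∧
    ∀ i, Module.Finite (MonoidAlgebra ℤ G) (Rep.toModuleMonoidAlgebra.obj (P.complex.X i))) ∧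
  (∀ i : ℕ, i ≠ 3 → Subsingleton (groupCohomology (Rep.ofMulAction ℤ G G) i)) ∧
  Nonempty (groupCohomology (Rep.ofMulAction ℤ G G) 3 ≃+ ℤ)

/-- the intersection of the conjugates of the associated subgroup by all powers of the stable
letter -/
def mu (H : Type) [Group H] (F F' : Subgroup H) (φ : F ≃* F') :
    Subgroup (HNNExtension H F F' φ) :=
  ⨅ k : ℤ, (F.map HNNExtension.of).map (MulAut.conj (HNNExtension.t ^ k)).toMonoidHom

theorem result (H : Type) [Group H] (F F' : Subgroup H) (φ : F ≃* F')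
    (hG : IsPD3 (HNNExtension H F F' φ)) (hH : Group.FG H) (hF : F.FG)
    (D : Type) [Ring D] [StrongRankCondition D] (ι : MonoidAlgebra ℤ F →+* D)
    (hι : ∀ x : MonoidAlgebra ℤ F, x ≠ 0 → ∀ c : D, c * ι x = 0 → c = 0) :
    (mu H F F' φ).FG := by
  obtain ⟨⟨P, h1, h2⟩, h3, h4⟩ := hG
  exact Lib.MP_4269b5_al.Ag.hnn_fg φ (Lib.MP_4269b5_al.Ag.modData P h1 h2 h3 h4) hH hF ι hι

end Pool.Agent.Results.MP_4269b5_al.Agrarian
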